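import Mathlib

set_option autoImplicit false

namespace Pool.Agent.Results.MP_c087c9_gt.Counter

/-- The surjective span: supremum of `m(C) = inf d(x,y)` over connected `C` with both
projections onto `X`. -/
noncomputable def surjSpan (X : Type) [MetricSpace X] : ENNReal :=
  ⨆ (C : Set (X × X)) (_ : IsConnected C)
    (_ : Prod.fst '' C = Set.univ ∧ Prod.snd '' C = Set.univ), ⨅ p ∈ C, edist p.1 p.2

/-- The surjective semi-span: the same with at least one projection onto `X`. -/
noncomputable def surjSemiSpan (X : Type) [MetricSpace X] : ENNReal :=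
  ⨆ (C : Set (X × X)) (_ : IsConnected C)
    (_ : Prod.fst '' C = Set.univ ∨ Prod.snd '' C = Set.univ), ⨅ p ∈ C, edist p.1 p.2

section
open Set Filter Topology

noncomputable def r (s : ℝ) : ℝ × ℂ := (Real.exp (-s), Complex.exp (Real.pi * s * Complex.I))

lemma r_cont : Continuous r := by unfold r; fun_prop

abbrev X : Type := ↥(r '' Ici 0)

instance : ConnectedSpace X :=
  Subtype.connectedSpace (isConnected_Ici.image r r_cont.continuousOn)

lemma r_dist (s : ℝ) : 2 ≤ dist (r s) (r (s + 1)) := by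
  rw [Prod.dist_eq]
  refine le_trans (le_of_eq ?_) (le_max_right _ _)
  simp only [r]
  have : Complex.exp (Real.pi * ((s + 1 : ℝ) : ℂ) * Complex.I) =
      -Complex.exp (Real.pi * s * Complex.I) := by
    rw [show (Real.pi * ((s + 1 : ℝ) : ℂ) * Complex.I) =
      Real.pi * s * Complex.I + Real.pi * Complex.I by push_cast; ring, Complex.exp_add,
      Complex.exp_pi_mul_I]
    ring
  rw [this, dist_eq_norm, sub_neg_eq_add, ← two_mul, norm_mul]
  have h2 := Complex.norm_exp_ofReal_mul_I (Real.pi * s)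
  push_cast at h2
  rw [h2]
  simp

lemma fst_inj {x y : X} (h : x.1.1 = y.1.1) : x = y := by
  apply Subtype.ext
  obtain ⟨s, -, e⟩ := x.2
  obtain ⟨t, -, e'⟩ := y.2
  rw [← e, ← e'] at h
  have : -s = -t := Real.exp_injective h
  rw [← e, ← e', neg_injective this]

noncomputable def x0 : X := ⟨r 0, 0, self_mem_Ici, rfl⟩

lemma fst_le (x : X) : x.1.1 ≤ x0.1.1 := by
  obtain ⟨s, hs, e⟩ := x.2
  rw [← e]
  exact Real.exp_le_exp.2 (neg_le_neg hs)

lemma surjSpan_eq : surjSpan X = 0 := by
  refine le_antisymm (iSup_le fun Z => iSup_le fun hZ => iSup_le fun hZ' => ?_) bot_le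
  obtain ⟨a, ha, ha'⟩ : x0 ∈ Prod.snd '' Z := by rw [hZ'.2]; trivial
  obtain ⟨b, hb, hb'⟩ : x0 ∈ Prod.fst '' Z := by rw [hZ'.1]; trivial
  obtain ⟨c, hc, hc'⟩ := hZ.isPreconnected.intermediate_value₂ ha hb
    (f := fun p => p.1.1.1) (g := fun p => p.2.1.1) (by fun_prop) (by fun_prop)
    (by rw [ha']; exact fst_le _) (by rw [hb']; exact fst_le _)
  refine iInf₂_le_of_le c hc ?_
  rw [fst_inj hc', edist_self]

def ZZ : Set (X × X) :=
  range fun s : Ici (0:ℝ) => (⟨r s, s, s.2, rfl⟩,
    ⟨r (s + 1), s + 1, add_nonneg (show (0:ℝ) ≤ s from s.2) zero_le_one, rfl⟩)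

lemma ZZ_conn : IsConnected ZZ := by
  haveI := Subtype.connectedSpace (isConnected_Ici (a := (0:ℝ)))
  refine isConnected_range ?_
  have := r_cont
  fun_prop

lemma two_le : 2 ≤ surjSemiSpan X := by
  refine le_iSup₂_of_le ZZ ZZ_conn (le_iSup_of_le (Or.inl ?_) (le_iInf₂ ?_))
  · refine eq_univ_of_forall ?_
    rintro ⟨_, s, hs, rfl⟩
    exact ⟨_, ⟨⟨s, hs⟩, rfl⟩, rfl⟩
  · rintro _ ⟨s, rfl⟩
    rw [edist_dist, ← ENNReal.ofReal_ofNat]
    exact ENNReal.ofReal_le_ofReal (r_dist s)

lemma bdd : Bornology.IsBounded (univ : Set X) := by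
  refine (Metric.isBounded_iff_subset_closedBall x0).2 ⟨2, fun x _ => ?_⟩
  obtain ⟨s, hs, e⟩ := x.2
  rw [Metric.mem_closedBall, Subtype.dist_eq, ← e, Prod.dist_eq]
  refine max_le ?_ ?_
  · have h1 := Real.exp_pos (-s)
    have h2 : Real.exp (-s) ≤ 1 := Real.exp_le_one_iff.2 (neg_nonpos.2 hs)
    simp only [r, x0, neg_zero, Real.exp_zero, Real.dist_eq, abs_le]
    constructor <;> linarith
  · refine (dist_le_norm_add_norm _ _).trans ?_
    have h2 := Complex.norm_exp_ofReal_mul_I (Real.pi * s)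
    push_cast at h2
    simp only [r, x0]
    rw [h2]
    simp
    norm_num

end

/-- A bounded connected metric space with surjective span `0` and surjective semi-span
strictly greater than twice its surjective span. -/
theorem result :
    ∃ (X : Type) (_ : MetricSpace X), ConnectedSpace X ∧ Bornology.IsBounded (Set.univ : Set X) ∧
      surjSpan X = 0 ∧ 2 * surjSpan X < surjSemiSpan X := by
  refine ⟨X, inferInstance, inferInstance, bdd, surjSpan_eq, ?_⟩
  rw [surjSpan_eq, mul_zero]
  exact lt_of_lt_of_le (by norm_num) two_le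

end Pool.Agent.Results.MP_c087c9_gt.Counter
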